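import Mathlib
import Pool.Agent.Lib.MP_85963d_gt.Interfaces

/-!
# Theorem L from the linear theory and Theorem N
-/

set_option autoImplicit false

open MeasureTheory Set Filter Topology Quaternion
open scoped Real ContDiff

namespace Pool.Agent.MP85963d.H92

open SF

theorem seg_one (p q : SF) : seg p q 1 = q := by simp [seg]

theorem seg_zero (p q : SF) : seg p q 0 = p := by simp [seg]

theorem thmL_of (hW : WSFacts) (hD : DetFacts) (hF : FourFacts) (hA : LinAStatement)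
    (hB : LinBStatement) (hC : LinCStatement) (hN : ThmNStatement) : ThmLStatement := by
  intro p hp hr hK hneg
  have a1 := hW.adm_one
  have r1 := hW.rotInv_one
  have m1 : (1:ℝ) ∈ Icc (0:ℝ) 1 := ⟨zero_le_one, le_rfl⟩
  -- facts about weights
  have cts : ∀ s ∈ Icc (0:ℝ) 1, Cts (wf (seg 1 p s)) ∧ IsKlein (wf (seg 1 p s)) ∧
      RotInv (wf (seg 1 p s)) := by
    intro s hs
    have ha := hW.seg_adm 1 p a1 hp s hs
    have e : (wS (seg 1 p s) : ℍ → ℝ) = wf (seg 1 p s) := by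
      funext x
      by_cases hx : x = 0
      · subst hx
        rw [SF.map_zero']
        simp [wf, SF.map_zero']
      · exact hW.wS_apply _ ha x hx
    refine ⟨?_, ?_, ?_⟩
    · rw [← e]
      exact ⟨(wS (seg 1 p s)).continuousOn, fun r x hr _ => (wS (seg 1 p s)).hom hr x⟩
    · rw [← e]; exact hW.wS_klein _ ha
    · rw [← e]; exact hW.wS_rotInv _ ha (hW.seg_rotInv 1 p r1 hr s)
  obtain ⟨M, hM⟩ := hA 1 p a1 hp r1 hr
  obtain ⟨δ, hδ, N₀, hN₀⟩ := hB 1 p a1 hp r1 hr 4 (by norm_num) 1 m1 (by rwa [seg_one])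
  -- choice of the parameter
  have hfin : (⋃ k ∈ Finset.Ico 1 M,
      {s : ℝ | s ∈ Icc (0:ℝ) 1 ∧ ¬ KerTriv k (wf (seg 1 p s))}).Finite := by
    apply Set.Finite.biUnion (Finset.finite_toSet _)
    intro k hk
    have := Finset.mem_Ico.1 hk
    exact hC p hp hr k this.1
  have hinf : (Ioo (max (1 - δ) 0) 1).Infinite := Ioo_infinite (by
    apply max_lt <;> linarith)
  obtain ⟨s, hs, hsn⟩ := hinf.exists_notMem_finite hfin
  have hs0 : s ∈ Icc (0:ℝ) 1 := ⟨(le_max_right _ _).trans hs.1.le, hs.2.le⟩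
  have hs1 : |s - 1| < δ := by
    rw [abs_lt]
    have := (le_max_left (1 - δ) 0).trans_lt hs.1
    constructor <;> [linarith; linarith [hs.2]]
  set w := wf (seg 1 p s) with hw
  obtain ⟨cw, kw, rw'⟩ := cts s hs0
  have hker : ∀ k, 1 ≤ k → KerTriv k w := by
    intro k hk
    by_cases hkM : k < M
    · by_contra hcon
      apply hsn
      rw [mem_iUnion₂]
      exact ⟨k, Finset.mem_Ico.2 ⟨hk, hkM⟩, hs0, hcon⟩
    · exact (hM k (not_lt.1 hkM) s hs0).1
  have hexcl : ∀ (k n : ℕ), ¬ (PosDet (SNk k n) w ∧ NegDet (SNk k n) w) := fun k n =>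
    hD.excl (SNk k n) n w cw (fun y hy => (mem_SNk.1 hy).1)
  -- signs at `s`
  have hdich : ∀ k ∈ Finset.Ico 1 M, ∃ N : ℕ, ∀ n, N ≤ n →
      (PosDet (SNk k n) w ∨ NegDet (SNk k n) w) := by
    intro k hk
    have hk1 := (Finset.mem_Ico.1 hk).1
    obtain ⟨δ', hδ', N', hN'⟩ := hB 1 p a1 hp r1 hr k hk1 s hs0 (hker k hk1)
    refine ⟨N', fun n hn => ?_⟩
    rcases hN' s hs0 (by simpa using hδ') n hn with h | h
    · exact Or.inl h.1
    · exact Or.inr h.1
  choose! N hN' using hdich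
  set N₁ := (Finset.Ico 1 M).sup N with hN₁
  -- frequently negative at mode 4
  have hneg' : ∃ᶠ n in atTop, NegDet (SNk 4 n) w := by
    refine (hneg.and_eventually (eventually_ge_atTop N₀)).mono ?_
    rintro n ⟨hn, hn0⟩
    rcases hN₀ s hs0 hs1 n hn0 with h | h
    · exfalso
      have hc1 := cts 1 m1
      rw [seg_one] at hc1 h
      exact hD.excl (SNk 4 n) n (wf p) hc1.1 (fun y hy => (mem_SNk.1 hy).1) ⟨h.2, hn⟩
    · exact h.1
  -- the largest bad mode
  let Q : ℕ → ℕ → Prop := fun m n => (∃ i, Odd i ∧ m = 4 * i) ∧ NegDet (SNk m n) w ∧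
    ∀ j, (∃ i, Odd i ∧ j = 4 * i) → m < j → PosDet (SNk j n) w
  have hQ : ∃ᶠ n in atTop, ∃ m ∈ Finset.range M, Q m n := by
    refine (hneg'.and_eventually (eventually_ge_atTop N₁)).mono ?_
    rintro n ⟨hn, hn1⟩
    classical
    set B := (Finset.range M).filter fun j => (∃ i, Odd i ∧ j = 4 * i) ∧ NegDet (SNk j n) w
      with hBdef
    have h4 : 4 ∈ B := by
      rw [hBdef, Finset.mem_filter, Finset.mem_range]
      refine ⟨?_, ⟨1, odd_one, rfl⟩, hn⟩
      by_contra hcon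
      exact hexcl 4 n ⟨(hM 4 (not_lt.1 hcon) s hs0).2 n, hn⟩
    have hne : B.Nonempty := ⟨4, h4⟩
    have hmax := B.max'_mem hne
    set m := B.max' hne with hm
    rw [hBdef, Finset.mem_filter, Finset.mem_range] at hmax
    refine ⟨m, Finset.mem_range.2 hmax.1, hmax.2.1, hmax.2.2, ?_⟩
    intro j hj hmj
    by_cases hjM : j < M
    · have hj1 : 1 ≤ j := by omega
      have hjmem : j ∈ Finset.Ico 1 M := Finset.mem_Ico.2 ⟨hj1, hjM⟩
      have hNj : N j ≤ n := (Finset.le_sup hjmem).trans hn1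
      rcases hN' j hjmem n hNj with h | h
      · exact h
      · exfalso
        have : j ∈ B := by
          rw [hBdef, Finset.mem_filter, Finset.mem_range]
          exact ⟨hjM, hj, h⟩
        have := B.le_max' j this
        omega
    · exact (hM j (not_lt.1 hjM) s hs0).2 n
  obtain ⟨m, hm, hmQ⟩ : ∃ m ∈ Finset.range M, ∃ᶠ n in atTop, Q m n := by
    by_contra hcon
    push Not at hcon
    apply hQ
    have : ∀ᶠ n in atTop, ∀ m ∈ Finset.range M, ¬ Q m n := by
      rw [Filter.eventually_all_finset]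
      intro m hm
      exact hcon m hm
    filter_upwards [this] with n hn
    rintro ⟨m, hm, hq⟩
    exact hn m hm hq
  obtain ⟨n₁, ⟨⟨i₀, hi₀, hmi⟩, -, -⟩⟩ := hmQ.exists
  have hm1 : 1 ≤ m := by
    rcases hi₀ with ⟨t, ht⟩
    omega
  apply hN m (seg 1 p s) hm1 (hW.seg_adm 1 p a1 hp s hs0) (hW.seg_rotInv 1 p r1 hr s)
  · apply hF.ker m w hm1 cw kw rw'
    intro k hk
    apply hker
    rcases hk with ⟨t, ht⟩
    have : 1 ≤ k := by omega
    exact Nat.mul_pos hm1 this
  · refine hmQ.mono ?_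
    rintro n ⟨-, hneg1, hpos⟩
    apply hF.det m n w hm1 cw kw rw' hneg1
    intro k hk hk1
    apply hpos
    · exact ⟨i₀ * k, hi₀.mul hk, by rw [hmi]; ring⟩
    · have : m * 1 < m * k := Nat.mul_lt_mul_of_pos_left hk1 hm1
      omega

end Pool.Agent.MP85963d.H92
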