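import Mathlib
import Pool.Agent.Lib.MP_85963d_gt.Interfaces
import Pool.Agent.Lib.MP_85963d_gt.H92.ThmL

/-!
# From the one-variable statement to the frozen statement
-/

set_option autoImplicit false

open MeasureTheory Set Filter Topology Quaternion
open scoped Real ContDiff

namespace Pool.Agent.MP85963d.H92

open SF

theorem deriv_psiSeg {ψ₀ ψ₁ : ℝ → ℝ} (h₀ : Differentiable ℝ ψ₀) (h₁ : Differentiable ℝ ψ₁)
    (s : ℝ) : deriv (psiSeg ψ₀ ψ₁ s) = psiSeg (deriv ψ₀) (deriv ψ₁) s := by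
  funext t
  have e : psiSeg ψ₀ ψ₁ s = fun t => (1 - s) * ψ₀ t + s * ψ₁ t := rfl
  rw [e, deriv_fun_add ((h₀ t).const_mul _) ((h₁ t).const_mul _), deriv_const_mul _ (h₀ t),
    deriv_const_mul _ (h₁ t)]
  rfl

theorem isProf_seg {h tc : ℝ} {ψ₀ ψ₁ : ℝ → ℝ} (h₀ : IsProf h tc ψ₀) (h₁ : IsProf h tc ψ₁)
    {s : ℝ} (hs : s ∈ Icc (0:ℝ) 1) : IsProf h tc (psiSeg ψ₀ ψ₁ s) := by
  have d₀ : Differentiable ℝ ψ₀ := h₀.smooth.differentiable (by simp)
  have d₁ : Differentiable ℝ ψ₁ := h₁.smooth.differentiable (by simp)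
  have s₀ : ContDiff ℝ ∞ (deriv ψ₀) := (contDiff_infty_iff_deriv.1 h₀.smooth).2
  have s₁ : ContDiff ℝ ∞ (deriv ψ₁) := (contDiff_infty_iff_deriv.1 h₁.smooth).2
  have e1 := deriv_psiSeg d₀ d₁ s
  have e2 := deriv_psiSeg (s₀.differentiable (by simp)) (s₁.differentiable (by simp)) s
  have key : ∀ a b : ℝ, 0 < a → 0 < b → 0 < (1 - s) * a + s * b := by
    intro a b ha hb
    rcases eq_or_lt_of_le hs.1 with h | h
    · rw [← h]; linarith
    · have h1 : 0 ≤ (1 - s) * a := mul_nonneg (by linarith [hs.2]) ha.le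
      have h2 : 0 < s * b := mul_pos h hb
      linarith
  refine ⟨h₀.one_lt, h₀.tc_pos, h₀.tc_lt, ?_, ?_, ?_, ?_, ?_⟩
  · have : psiSeg ψ₀ ψ₁ s = fun t => (1 - s) * ψ₀ t + s * ψ₁ t := rfl
    rw [this]
    exact (contDiff_const.mul h₀.smooth).add (contDiff_const.mul h₁.smooth)
  · intro t
    simp only [psiSeg, h₀.even t, h₁.even t]
  · intro t
    rw [e1, e2]
    exact key _ _ (h₀.conv t) (h₁.conv t)
  · intro t
    have e : Sf (psiSeg ψ₀ ψ₁ s) t = (1 - s) * Sf ψ₀ t + s * Sf ψ₁ t := by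
      simp only [Sf, e1]
      simp only [psiSeg]
      ring
    rw [e]
    exact key _ _ (h₀.S_pos t) (h₁.S_pos t)
  · intro t ht
    simp only [psiSeg, h₀.cap t ht, h₁.cap t ht]
    ring

theorem isBody_seg {ψ₀ ψ₁ : ℝ → ℝ} {p₀ p₁ : SF} (h₀ : IsBody ψ₀ p₀) (h₁ : IsBody ψ₁ p₁) (s : ℝ) :
    IsBody (psiSeg ψ₀ ψ₁ s) (seg p₀ p₁ s) := by
  intro x hx hpos
  simp only [seg, SF.add_apply, SF.smul_apply, h₀ x hx hpos, h₁ x hx hpos, psiSeg]
  ring

theorem final_of (hW : WSFacts) (hBo : BodyStatement) (hR : RedFacts) (hBe : BefnStatement)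
    (hP : PfnStatement) (hBd : BordStatement) (hL : ThmLStatement) (h1 : Sign1DStatement) :
    NonUniqueness := by
  obtain ⟨h, t₁, tc, ψ₀, ψ₁, β, ϖ, C₀, C₁, ht₁, _, hψ₀, hψ₁, hβ, hϖ, hinj, hC₀, hC₁, hdet⟩ := h1
  obtain ⟨p₀, a₀, r₀, b₀⟩ := hBo h tc ψ₀ hψ₀
  obtain ⟨p₁, a₁, r₁, b₁⟩ := hBo h tc ψ₁ hψ₁
  -- the right hand sides
  have hb : ∀ i, ∃ b : SF, IsE b ∧ Mode 4 b ∧ ∀ a : ℝ, 0 < a → b (xj a) =
      (2 / π) * (1 + a ^ 2) * β i a := by
    intro i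
    obtain ⟨c1, c2, c3⟩ := hβ i
    apply hBe
    · exact (contDiff_const.mul (contDiff_const.add (contDiff_id.pow 2))).mul c1
    · exact c2.mul_left
    · exact (tsupport_mul_subset_right).trans c3
  choose b bE bM bv using hb
  have hPP : ∀ i, ∃ P : SF, ∀ y : ℍ → ℝ, Cts y → IsU y → Mode 4 y →
      ip y P = ∫ t in (0:ℝ)..t₁, ϖ i t * gy y t := by
    intro i
    obtain ⟨c1, c2, c3⟩ := hϖ i
    exact hP t₁ (ϖ i) ht₁ c1 c2 c3
  choose P hPv using hPP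
  -- translation of the kernel equation
  have tr : ∀ (ψ : ℝ → ℝ) (p : SF), IsProf h tc ψ → Adm p → IsBody ψ p →
      ∀ (y : ℍ → ℝ) (c : Fin 2 → ℝ), Cts y → IsU y → Mode 4 y →
      (∀ x : ℍ, x ≠ 0 → avgK (fun z => wf p z * y z) x + ∑ i, c i * (b i) x = 0) →
      ∀ a : ℝ, 0 < a → T1 ψ (gy y) a + ∑ i, c i * β i a = 0 := by
    intro ψ p hψ ha hb y c yc yu ym heq a hapos
    have hx : xj a ≠ 0 := rot_ne_zero isImUnit_J _
    have e1 := heq (xj a) hx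
    rw [hR.T h tc ψ p hψ ha hb y yc yu ym a hapos] at e1
    have e2 : ∑ i, c i * (b i) (xj a) = (2 / π) * (1 + a ^ 2) * ∑ i, c i * β i a := by
      rw [Finset.mul_sum]
      apply Finset.sum_congr rfl
      intro i _
      rw [bv i a hapos]; ring
    rw [e2, ← mul_add] at e1
    have hne : (2 / π) * (1 + a ^ 2) ≠ 0 := by positivity
    exact (mul_eq_zero.1 e1).resolve_left hne
  have hlin : ∀ y : ℍ → ℝ, Cts y → LinGrowth (gy y) := fun y hy => hR.bdd y hy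
  obtain ⟨k₀, k₁, N₀, hN₀⟩ := hBd p₀ p₁ P b C₀ C₁ a₀ a₁ r₀ r₁ bE bM
    (by
      intro s hs y c yc yu ym heq hpi
      have has := hW.seg_adm p₀ p₁ a₀ a₁ s hs
      have ht := tr (psiSeg ψ₀ ψ₁ s) (seg p₀ p₁ s) (isProf_seg hψ₀ hψ₁ hs) has
        (isBody_seg b₀ b₁ s) y c yc yu ym heq
      have := hinj s hs (gy y) c (hR.cont y yc) (hlin y yc) ht (fun i => by
        rw [← hPv i y yc yu ym]; exact hpi i)
      exact ⟨hR.zero y yc yu ym this.1, this.2⟩)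
    (by
      intro y c yc yu ym heq
      have ht := tr ψ₀ p₀ hψ₀ a₀ b₀ y c yc yu ym heq
      rw [hC₀ (gy y) c (hR.cont y yc) (hlin y yc) ht]
      congr 1
      funext i
      rw [hPv i y yc yu ym])
    (by
      intro y c yc yu ym heq
      have ht := tr ψ₁ p₁ hψ₁ a₁ b₁ y c yc yu ym heq
      rw [hC₁ (gy y) c (hR.cont y yc) (hlin y yc) ht]
      congr 1
      funext i
      rw [hPv i y yc yu ym])
    hdet
  -- pigeonhole
  by_cases hf : ∃ᶠ n in atTop, NegDet (SNk 4 n) (wf p₀)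
  · exact hL p₀ a₀ r₀ k₀ hf
  · apply hL p₁ a₁ r₁ k₁
    rw [Filter.not_frequently] at hf
    apply Filter.Eventually.frequently
    filter_upwards [hf, eventually_ge_atTop N₀] with n hn hn0
    exact (hN₀ n hn0).resolve_left hn

/-- everything together -/
theorem main_of (hW : WSFacts) (hD : DetFacts) (hF : FourFacts) (hA : LinAStatement)
    (hB : LinBStatement) (hC : LinCStatement) (hN : ThmNStatement)
    (hBo : BodyStatement) (hR : RedFacts) (hBe : BefnStatement)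
    (hP : PfnStatement) (hBd : BordStatement) (h1 : Sign1DStatement) :
    NonUniqueness :=
  final_of hW hBo hR hBe hP hBd (thmL_of hW hD hF hA hB hC hN) h1

end Pool.Agent.MP85963d.H92
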