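import Mathlib
import Pool.Agent.Lib.MP_85963d_gt.Interfaces
import Pool.Agent.Lib.MP_85963d_gt.H2.Cas
import Pool.Agent.Lib.MP_85963d_gt.H2.Norm
import Pool.Agent.Lib.MP_85963d_gt.H2.LinA
import Pool.Agent.Lib.MP_85963d_gt.H89.MN
import Pool.Agent.Lib.MP_85963d_gt.H89.Spec
import Pool.Agent.Lib.MP_85963d_gt.H9.Psi
import Pool.Agent.Lib.MP_85963d_gt.H9.Pest
import Pool.Agent.Lib.MP_85963d_gt.H93.Dens
import Pool.Agent.Lib.MP_85963d_gt.H59.Sob
import Pool.Agent.Lib.MP_85963d_gt.H59.GN
import Pool.Agent.Lib.MP_85963d_gt.H51.Comp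
import Pool.Agent.Lib.MP_85963d_gt.H51.LincMain
import Pool.Agent.Lib.MP_85963d_gt.H32.Shift
import Pool.Agent.Lib.MP_85963d_gt.H79.Gard
import Pool.Agent.Lib.MP_85963d_gt.H79.Linen
import Pool.Agent.Lib.MP_85963d_gt.H98.WS
import Pool.Agent.Lib.MP_85963d_gt.H98.Fam
import Pool.Agent.Lib.MP_85963d_gt.H98.Small
import Pool.Agent.Lib.MP_85963d_gt.H37.GaugeMod
import Pool.Agent.Lib.MP_85963d_gt.H37.BodyMod
import Pool.Agent.Lib.MP_85963d_gt.H37.Pfn
import Pool.Agent.Lib.MP_85963d_gt.H72.Det
import Pool.Agent.Lib.MP_85963d_gt.H72.Geo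
import Pool.Agent.Lib.MP_85963d_gt.H46.Mode
import Pool.Agent.Lib.MP_85963d_gt.H46.Ener
import Pool.Agent.Lib.MP_85963d_gt.H19.Four
import Pool.Agent.Lib.MP_85963d_gt.H26.Red
import Pool.Agent.Lib.MP_85963d_gt.H45.Befn
import Pool.Agent.Lib.MP_85963d_gt.H31.Deg
import Pool.Agent.Lib.MP_85963d_gt.H69.Ener1
import Pool.Agent.Lib.MP_85963d_gt.H86.LinB
import Pool.Agent.Lib.MP_85963d_gt.H86.Bord
import Pool.Agent.Lib.MP_85963d_gt.H52.ThmN
import Pool.Agent.Lib.MP_85963d_gt.H92.Final

/-!
# The proved modules
-/

set_option autoImplicit false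

namespace Pool.Agent.MP85963d.Facts

theorem cas : CasFacts := H2.cas_holds
theorem norm : NormFacts := H2.norm_holds
theorem mn : MNFacts := H89.mn_holds
theorem spec : SpecStatement := H89.spec_holds
theorem psi : PsiFacts := H9.psi_of mn
theorem pest : PestStatement := H9.pest_of mn
theorem dens : DensFacts := H93.dens_of mn
theorem sob : SobStatement := H59.sob_of cas norm
theorem comp : CompStatement := H51.comp_of sob norm cas
theorem shift : ShiftStatement := H32.shift_of cas mn psi
theorem gard : GardStatement := H79.gard_of shift pest psi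
theorem linen : LinenStatement := H79.linen_of gard pest norm psi cas
theorem ws : WSFacts := ws_holds
theorem fam : FamFacts := fam_holds
theorem small : SmallStatement := small_of sob norm cas
theorem gauge : GaugeFacts := H37.gauge_holds
theorem body : BodyStatement := H37.body_holds
theorem pfn : PfnStatement := H37.pfn_holds
theorem det : DetFacts := H72.det_of mn psi
theorem geo : GeoStatement := H72.geo_holds
theorem mode : ModeFacts := H46.mode_of cas mn psi
theorem four : FourFacts := H19.four_of mn psi det mode
theorem red : RedFacts := red_holds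
theorem befn : BefnStatement := H45.befn_holds
theorem deg : DegStatement := deg_holds
theorem linA : LinAStatement := H2.linA_of gard fam ws mode det dens pest psi
theorem linC : LinCStatement := H51.linc_of gard spec fam ws mode dens pest psi mn cas
theorem ener1 : Ener1Statement := H69.ener1_of cas norm psi pest sob H59.gn_holds ws fam small
theorem ener : EnerStatement := H46.ener_of ener1 gard cas norm psi fam ws
theorem linB : LinBStatement := H86.linB_of linen comp dens mode det fam ws mn
theorem bord : BordStatement := H86.bord_of linen comp dens mode fam ws mn psi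
theorem thmN : ThmNStatement := thmN_of deg ener small comp dens psi mn gauge geo ws det

theorem main_of_sign (h : Sign1DStatement) : NonUniqueness :=
  H92.main_of ws det four linA linB linC thmN body red befn pfn bord h

end Pool.Agent.MP85963d.Facts
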