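import Pool.Agent.Lib.MP_85963d_gt.H92.Facts
import Pool.Agent.Lib.MP_85963d_gt.H70.Sign1D

/-!
# Non-uniqueness for perimeters of central sections (MP_85963d)
-/

set_option autoImplicit false

namespace Pool.Agent.MP85963d

theorem nonUniqueness : NonUniqueness :=
  Facts.main_of_sign Pool.Agent.Lib.MP_85963d_gt.H70.sign1d_holds

end Pool.Agent.MP85963d
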